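import Pool.Agent.Helper5.KPA.StT
import Pool.Agent.Helper29.KP.M_SCA

/-!
# Project KP, module TSC: scaling of the sublevel sets of `PP`
-/

set_option autoImplicit false

namespace Pool.Agent.Helper31.KPA

open Pool.Agent.Helper5.KPA Pool.Agent.Helper52.KP MvPolynomial MeasureTheory

theorem PP_cont {m N : ℕ} (s : Fin N → MvPolynomial (Fin m) ℂ) (lam : Fin N → ℕ) (t : ℝ) :
    Continuous (PP s lam t) := by
  unfold PP
  refine continuous_finsetSum _ fun j _ => ?_
  exact continuous_const.mul ((MvPolynomial.continuous_eval (s j)).norm.pow 2)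

/-- Module TSC. -/
theorem hTSC : StTSC := by
  intro C hC r F hF N s lam hs Λ t hΛ
  have hn := hC.hn
  have hr := hF.hr
  have hd : 0 < C.n * r := Nat.mul_pos hn hr
  have hsR : ∀ j, s j ∈ C.R (C.n * r) := by
    intro j
    have h1 : s j ∈ F 1 0 := by
      rw [hs.span 0]
      exact Submodule.subset_span ⟨j, Nat.zero_le _, rfl⟩
    have h2 := hF.zero 1
    rw [mul_one] at h2
    rw [← h2]
    exact h1
  obtain ⟨c, hcd⟩ : ∃ c : ℝ, c = Λ ^ (1 / (2 * (C.n * r : ℕ) : ℝ)) := ⟨_, rfl⟩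
  have hc : 0 < c := by rw [hcd]; positivity
  have hnr : ‖(c : ℂ)‖ = c := by rw [Complex.norm_real, Real.norm_of_nonneg hc.le]
  have hcΛ : (c ^ (C.n * r)) ^ 2 = Λ := by
    rw [← pow_mul, ← Real.rpow_natCast, hcd, ← Real.rpow_mul hΛ.le]
    have : 1 / (2 * ((C.n * r : ℕ) : ℝ)) * ((C.n * r * 2 : ℕ) : ℝ) = 1 := by
      push_cast
      have h1 : (0 : ℝ) < C.n := by exact_mod_cast hn
      have h2 : (0 : ℝ) < r := by exact_mod_cast hr
      field_simp
    rw [this, Real.rpow_one]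
  have hcn : c ^ (2 * ∑ j, C.w j) * (c ^ C.jd) ^ 2 = Λ ^ (1 / (r : ℝ)) := by
    have h5 : 2 * ∑ j, C.w j + C.jd * 2 = 2 * C.n := by
      have := hC.deg
      omega
    rw [← pow_mul, ← pow_add, h5, ← Real.rpow_natCast, hcd, ← Real.rpow_mul hΛ.le]
    congr 1
    push_cast
    have h1 : (0 : ℝ) < C.n := by exact_mod_cast hn
    have h2 : (0 : ℝ) < r := by exact_mod_cast hr
    field_simp
  have hPP : ∀ z, PP s lam t (scl C.w (c : ℂ) z) = Λ * PP s lam t z := by
    intro z
    unfold PP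
    rw [Finset.mul_sum]
    refine Finset.sum_congr rfl fun j _ => ?_
    rw [hC.hom _ _ (hsR j), norm_mul, norm_pow, hnr, mul_pow, hcΛ]
    ring
  have hmeas : ∀ a : ℝ, MeasurableSet {z | PP s lam t z ≤ a} := fun a =>
    (isClosed_le (PP_cont s lam t) continuous_const).measurableSet
  have hJm : Measurable fun z : Fin C.m → ℂ => ENNReal.ofReal (‖ev C.J z‖ ^ 2) := by
    have h : Continuous fun z : Fin C.m → ℂ => ev C.J z := MvPolynomial.continuous_eval _
    exact ENNReal.measurable_ofReal.comp ((h.norm.pow 2).measurable)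
  have hnu : ∀ a : ℝ, C.nu {z | PP s lam t z ≤ a} = ∫⁻ z, {z | PP s lam t z ≤ a}.indicator
      (fun z => ENNReal.ofReal (‖ev C.J z‖ ^ 2)) z := by
    intro a
    unfold Cone.nu
    rw [withDensity_apply _ (hmeas a), lintegral_indicator (hmeas a)]
  rw [hnu, hnu, Pool.Agent.Helper29.KP.sca_lint C.w hc _ (hJm.indicator (hmeas Λ)), ← hcn,
    ENNReal.ofReal_mul (by positivity), mul_assoc]
  congr 1
  rw [← lintegral_const_mul' _ _ ENNReal.ofReal_ne_top]
  refine lintegral_congr fun z => ?_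
  by_cases hz : PP s lam t z ≤ 1
  · have h1 : scl C.w (c : ℂ) z ∈ {z | PP s lam t z ≤ Λ} := by
      change PP s lam t (scl C.w (c : ℂ) z) ≤ Λ
      rw [hPP]
      nlinarith
    have h2 : z ∈ {z | PP s lam t z ≤ 1} := hz
    rw [Set.indicator_of_mem h1, Set.indicator_of_mem h2, hC.Jhom, norm_mul, norm_pow, hnr,
      mul_pow, ENNReal.ofReal_mul (by positivity)]
  · have h1 : scl C.w (c : ℂ) z ∉ {z | PP s lam t z ≤ Λ} := by
      intro h
      change PP s lam t (scl C.w (c : ℂ) z) ≤ Λ at h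
      rw [hPP] at h
      apply hz
      nlinarith
    have h2 : z ∉ {z | PP s lam t z ≤ 1} := hz
    rw [Set.indicator_of_notMem h1, Set.indicator_of_notMem h2, mul_zero]

end Pool.Agent.Helper31.KPA
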