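import Pool.Agent.Helper5.KPA.StT
import Pool.Agent.Helper31.KPA.M_TSC

/-!
# Project KP, module TIG: integrability from the slope
-/

set_option autoImplicit false

namespace Pool.Agent.Helper31.KPA

open Pool.Agent.Helper5.KPA Pool.Agent.Helper52.KP MvPolynomial MeasureTheory
open scoped ENNReal

theorem tonelli {m : ℕ} (F : (Fin (m + 1) → ℂ) → ENNReal) (hF : Measurable F) :
    ∫⁻ ζ, F ζ = ∫⁻ τ : ℂ, ∫⁻ z : Fin m → ℂ, F (Fin.cons τ z : Fin (m + 1) → ℂ) := by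
  have h1 := volume_preserving_piFinSuccAbove (fun _ : Fin (m + 1) => ℂ) 0
  have h2 : Measurable fun p : ℂ × (Fin m → ℂ) =>
      F ((MeasurableEquiv.piFinSuccAbove (fun _ : Fin (m + 1) => ℂ) 0).symm p) :=
    hF.comp (MeasurableEquiv.piFinSuccAbove (fun _ : Fin (m + 1) => ℂ) 0).symm.measurable
  have h3 := h1.lintegral_comp h2
  simp only [MeasurableEquiv.symm_apply_apply] at h3
  rw [h3]
  have h4 : (volume : Measure (ℂ × (Fin m → ℂ))) = (volume : Measure ℂ).prod volume := rfl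
  rw [h4, lintegral_prod _ h2.aemeasurable]
  refine lintegral_congr fun τ => lintegral_congr fun z => ?_
  congr 1
  change Fin.insertNth (α := fun _ => ℂ) 0 τ z = _
  rw [Fin.insertNth_zero']

theorem fin_int {p : ℝ} (hp : 2 < p) : ∫⁻ τ : ℂ, ENNReal.ofReal ((1 + ‖τ‖) ^ (-p)) ≠ ⊤ := by
  have h := finite_integral_one_add_norm (μ := (volume : Measure ℂ)) (E := ℂ) (r := p)
    (by rw [Complex.finrank_real_complex]; exact_mod_cast hp)
  exact h.ne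

theorem one_pow_bd {p x : ℝ} (hp : 0 < p) (hx : 0 ≤ x) (h1 : x ≤ 1) :
    1 ≤ 2 ^ p * (1 + x) ^ (-p) := by
  rw [Real.rpow_neg (by positivity), ← div_eq_mul_inv, one_le_div (by positivity)]
  exact Real.rpow_le_rpow (by positivity) (by linarith) hp.le

theorem two_pow_bd {p x : ℝ} (hp : 0 < p) (h1 : 1 ≤ x) :
    x ^ (-p) ≤ 2 ^ p * (1 + x) ^ (-p) := by
  have h0 : 0 < x := by linarith
  rw [Real.rpow_neg (by positivity), Real.rpow_neg (by positivity), ← div_eq_mul_inv,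
    ← one_div, div_le_div_iff₀ (by positivity) (by positivity), one_mul,
    ← Real.mul_rpow (by positivity) (by positivity)]
  exact Real.rpow_le_rpow (by positivity) (by linarith) hp.le

/-- the inner integral -/
theorem inner (C' : Cone) {N : ℕ} (s₁ : Fin N → MvPolynomial (Fin C'.m) ℂ) (lam : Fin N → ℕ)
    (t Λ B : ℝ) (A : Set (Fin C'.m → ℂ)) (f : (Fin C'.m → ℂ) → ℝ)
    (h : ∀ z ∈ A, PP s₁ lam t z ≤ Λ ∧ f z ≤ B) (hB : 0 ≤ B) :
    ∫⁻ z, A.indicator (fun z => ENNReal.ofReal (f z * ‖ev C'.J z‖ ^ 2)) z ≤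
      ENNReal.ofReal B * C'.nu {z | PP s₁ lam t z ≤ Λ} := by
  have hmeas : MeasurableSet {z | PP s₁ lam t z ≤ Λ} :=
    (isClosed_le (PP_cont s₁ lam t) continuous_const).measurableSet
  unfold Cone.nu
  rw [withDensity_apply _ hmeas, ← lintegral_const_mul' _ _ ENNReal.ofReal_ne_top,
    ← lintegral_indicator hmeas]
  refine lintegral_mono fun z => ?_
  by_cases hz : z ∈ A
  · obtain ⟨h1, h2⟩ := h z hz
    have hz2 : z ∈ {z | PP s₁ lam t z ≤ Λ} := h1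
    rw [Set.indicator_of_mem hz, Set.indicator_of_mem hz2, ← ENNReal.ofReal_mul hB]
    exact ENNReal.ofReal_le_ofReal (mul_le_mul_of_nonneg_right h2 (by positivity))
  · rw [Set.indicator_of_notMem hz]
    exact zero_le

/-- Module TIG. -/
theorem hTIG (hTEV : StTEV) (hTAD : StTAD) (hTSC : StTSC) (hABD : StABD) (hAGR : StAGR) :
    StTIG := by
  intro C' hC r F hF a ha ℓ hℓ k l s hk hl hs hG c
  obtain ⟨hGr, -, -, -⟩ := hAGR C' hC r F hF
  obtain ⟨N, s₁, lam, hAdp⟩ := hTAD C' hC r F hF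
  obtain ⟨j, lG, hj, hsF, hlG⟩ := hG
  have hr := hF.hr
  have hrpos : (0 : ℝ) < r := by exact_mod_cast hr
  -- the set
  obtain ⟨A, hA⟩ : ∃ A : Set (Fin (C'.m + 1) → ℂ),
      A = {ζ | ‖evm (fun i => toM C'.m (a i)) ζ‖ ≤ c} := ⟨_, rfl⟩
  have hevc : ∀ (M : ℕ) (p : MvPolynomial (Fin M) ℂ), Continuous fun ζ : Fin M → ℂ => ev p ζ :=
    fun M p => MvPolynomial.continuous_eval p
  have hAm : MeasurableSet A := by
    rw [hA]
    have h1 : Continuous fun ζ : Fin (C'.m + 1) → ℂ => evm (fun i => toM C'.m (a i)) ζ :=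
      continuous_pi fun i => hevc _ _
    exact (isClosed_le h1.norm continuous_const).measurableSet
  -- elements of `B` are bounded
  have hbd : ∀ (i : ℕ) (b : QQ C'.m), b ∈ BB F i → ∃ K : ℝ, 0 ≤ K ∧
      ∀ ζ ∈ A, ‖ev (toM C'.m b) ζ‖ ≤ K := by
    intro i b hb
    obtain ⟨K, hK, hKb⟩ := hABD (QQ C'.m) (BB F) hGr (C'.m + 1) a ha i b hb
    refine ⟨K * ((C'.m + 1) * |c|) ^ i, by positivity, fun ζ hζ => ?_⟩
    rw [hA] at hζ
    have hφ : ∀ x : QQ C'.m, ((MvPolynomial.aeval ζ).comp (toM C'.m).toAlgHom) x =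
        ev (toM C'.m x) ζ := fun x => rfl
    have h1 := hKb ((MvPolynomial.aeval ζ).comp (toM C'.m).toAlgHom)
    simp only [hφ] at h1
    refine h1.trans (mul_le_mul_of_nonneg_left ?_ hK)
    refine pow_le_pow_left₀ (Finset.sum_nonneg fun _ _ => norm_nonneg _) ?_ _
    calc ∑ j, ‖ev (toM C'.m (a j)) ζ‖ ≤ ∑ _j : Fin (C'.m + 1), |c| :=
          Finset.sum_le_sum fun j _ =>
            ((norm_le_pi_norm (evm (fun i => toM C'.m (a i)) ζ) j).trans hζ).trans (le_abs_self c)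
      _ = _ := by
        rw [Finset.sum_const, Finset.card_univ, Fintype.card_fin, nsmul_eq_mul]
        push_cast
        ring
  have hmon : ∀ (i : ℕ) (l' : ℕ) (p : MvPolynomial (Fin C'.m) ℂ), p ∈ F i l' →
      ∃ K : ℝ, 0 ≤ K ∧ ∀ (τ : ℂ) (z : Fin C'.m → ℂ), (Fin.cons τ z : Fin (C'.m + 1) → ℂ) ∈ A →
        ‖ev p z‖ ≤ K ∧ ‖ev p z‖ * ‖τ‖ ^ l' ≤ K := by
    intro i l' p hp
    have hanti : ∀ l, F i l ≤ F i 0 := by
      intro l
      induction l with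
      | zero => exact le_refl _
      | succ l ih => exact (hF.anti i l).trans ih
    have hB : ∀ l'', p ∈ F i l'' → (Polynomial.C p * Polynomial.X ^ l'' : QQ C'.m) ∈ BB F i := by
      intro l'' hp' l₃
      rw [Polynomial.coeff_C_mul, Polynomial.coeff_X_pow]
      split_ifs with h
      · rw [mul_one, h]; exact hp'
      · rw [mul_zero]; exact Submodule.zero_mem _
    obtain ⟨K₁, hK₁, hb₁⟩ := hbd i _ (hB l' hp)
    obtain ⟨K₀, hK₀, hb₀⟩ := hbd i _ (hB 0 (hanti l' hp))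
    have hval : ∀ (l'' : ℕ) (τ : ℂ) (z : Fin C'.m → ℂ), ev (toM C'.m
        (Polynomial.C p * Polynomial.X ^ l'')) (Fin.cons τ z : Fin (C'.m + 1) → ℂ) =
        ev p z * τ ^ l'' := by
      intro l'' τ z
      rw [hTEV]
      simp
    refine ⟨max K₀ K₁, le_max_of_le_left hK₀, fun τ z hz => ⟨?_, ?_⟩⟩
    · have h1 := hb₀ _ hz
      rw [hval, pow_zero, mul_one] at h1
      exact h1.trans (le_max_left _ _)
    · have h1 := hb₁ _ hz
      rw [hval, norm_mul, norm_pow] at h1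
      exact h1.trans (le_max_right _ _)
  -- the bounds of the adapted basis
  have hsj : ∀ i, s₁ i ∈ F 1 (lam i) := by
    intro i
    rw [hAdp.span]
    exact Submodule.subset_span ⟨i, (show lam i ≤ lam i from le_refl _), rfl⟩
  choose Kj hKj hKjb using fun i => hmon 1 (lam i) (s₁ i) (hsj i)
  obtain ⟨Λ, hΛd⟩ : ∃ Λ : ℝ, Λ = 1 + ∑ i, Kj i ^ 2 := ⟨_, rfl⟩
  have hΛ : 0 < Λ := by
    rw [hΛd]
    have : 0 ≤ ∑ i, Kj i ^ 2 := Finset.sum_nonneg fun _ _ => by positivity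
    linarith
  have hPP0 : ∀ (τ : ℂ) (z : Fin C'.m → ℂ), (Fin.cons τ z : Fin (C'.m + 1) → ℂ) ∈ A →
      PP s₁ lam 0 z ≤ Λ := by
    intro τ z hz
    unfold PP
    rw [hΛd]
    have : ∑ i, Real.exp (0 * lam i) * ‖ev (s₁ i) z‖ ^ 2 ≤ ∑ i, Kj i ^ 2 := by
      refine Finset.sum_le_sum fun i _ => ?_
      rw [zero_mul, Real.exp_zero, one_mul]
      exact pow_le_pow_left₀ (norm_nonneg _) (hKjb i τ z hz).1 2
    linarith
  have hPPt : ∀ (τ : ℂ) (z : Fin C'.m → ℂ), 1 ≤ ‖τ‖ →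
      (Fin.cons τ z : Fin (C'.m + 1) → ℂ) ∈ A → PP s₁ lam (2 * Real.log ‖τ‖) z ≤ Λ := by
    intro τ z hτ hz
    have hτ0 : 0 < ‖τ‖ := by linarith
    unfold PP
    rw [hΛd]
    have : ∑ i, Real.exp (2 * Real.log ‖τ‖ * lam i) * ‖ev (s₁ i) z‖ ^ 2 ≤ ∑ i, Kj i ^ 2 := by
      refine Finset.sum_le_sum fun i _ => ?_
      have h1 : Real.exp (2 * Real.log ‖τ‖ * lam i) = (‖τ‖ ^ lam i) ^ 2 := by
        have h2 : 2 * Real.log ‖τ‖ * lam i = Real.log ((‖τ‖ ^ lam i) ^ 2) := by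
          rw [Real.log_pow, Real.log_pow]
          push_cast
          ring
        rw [h2, Real.exp_log (by positivity)]
      rw [h1, ← mul_pow, mul_comm]
      exact pow_le_pow_left₀ (by positivity) (hKjb i τ z hz).2 2
    linarith
  -- the bound of `s`
  obtain ⟨K, hK, hKb⟩ := hmon _ lG (s ^ (r * j)) hsF
  have hq : 0 < r * j := Nat.mul_pos hr hj
  obtain ⟨q, hqd⟩ : ∃ q : ℝ, q = ((r * j : ℕ) : ℝ) := ⟨_, rfl⟩
  have hqpos : 0 < q := by rw [hqd]; exact_mod_cast hq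
  rw [← hqd] at hlG
  obtain ⟨ε, hε⟩ : ∃ ε : ℝ, ε = (lG / q - (l - ℓ)) / 2 := ⟨_, rfl⟩
  have hεpos : 0 < ε := by
    rw [hε]
    have : (l - ℓ : ℝ) < lG / q := by
      rw [lt_div_iff₀ hqpos]
      linarith
    linarith
  have hθ : lG / q = l - ℓ + 2 * ε := by rw [hε]; ring
  obtain ⟨K₂, hK₂⟩ := hℓ N s₁ lam hAdp ε hεpos
  have hsq : ∀ x B : ℝ, 0 ≤ x → x ^ (r * j) ≤ B → x ^ 2 ≤ B ^ (2 / q) := by
    intro x B hx hxB
    have h1 : x ^ 2 = (x ^ (r * j)) ^ (2 / q) := by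
      rw [← Real.rpow_natCast x (r * j), ← Real.rpow_mul hx, hqd, mul_div_cancel₀]
      · exact_mod_cast (Real.rpow_natCast x 2).symm
      · exact_mod_cast hq.ne'
    rw [h1]
    exact Real.rpow_le_rpow (by positivity) hxB (by positivity)
  have hs0 : ∀ (τ : ℂ) (z : Fin C'.m → ℂ), ‖τ‖ ≤ 1 → (Fin.cons τ z : Fin (C'.m + 1) → ℂ) ∈ A →
      ‖ev s z‖ ^ 2 * ‖τ‖ ^ (2 * (l - 1)) ≤ K ^ (2 / q) := by
    intro τ z hτ hz
    have h1 := (hKb τ z hz).1
    have h2 : ev (s ^ (r * j)) z = ev s z ^ (r * j) := map_pow _ _ _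
    rw [h2, norm_pow] at h1
    calc ‖ev s z‖ ^ 2 * ‖τ‖ ^ (2 * (l - 1)) ≤ ‖ev s z‖ ^ 2 * 1 :=
          mul_le_mul_of_nonneg_left (pow_le_one₀ (norm_nonneg _) hτ) (by positivity)
      _ ≤ _ := by
        rw [mul_one]
        exact hsq _ _ (norm_nonneg _) h1
  have hs1 : ∀ (τ : ℂ) (z : Fin C'.m → ℂ), 1 ≤ ‖τ‖ → (Fin.cons τ z : Fin (C'.m + 1) → ℂ) ∈ A →
      ‖ev s z‖ ^ 2 * ‖τ‖ ^ (2 * (l - 1)) ≤ K ^ (2 / q) * ‖τ‖ ^ (2 * ℓ - 2 - 4 * ε) := by
    intro τ z hτ hz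
    have hτ0 : 0 < ‖τ‖ := by linarith
    have h1 := (hKb τ z hz).2
    have h2 : ev (s ^ (r * j)) z = ev s z ^ (r * j) := map_pow _ _ _
    rw [h2, norm_pow] at h1
    have h3 : ‖ev s z‖ ^ (r * j) ≤ K * ‖τ‖ ^ (-(lG : ℝ)) := by
      rw [Real.rpow_neg hτ0.le, Real.rpow_natCast, ← div_eq_mul_inv, le_div_iff₀ (by positivity)]
      exact h1
    have h4 := hsq _ _ (norm_nonneg _) h3
    rw [Real.mul_rpow hK (by positivity), ← Real.rpow_mul hτ0.le] at h4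
    calc ‖ev s z‖ ^ 2 * ‖τ‖ ^ (2 * (l - 1))
        ≤ K ^ (2 / q) * ‖τ‖ ^ (-(lG : ℝ) * (2 / q)) * ‖τ‖ ^ (2 * (l - 1)) :=
          mul_le_mul_of_nonneg_right h4 (by positivity)
      _ = _ := by
        rw [← Real.rpow_natCast ‖τ‖ (2 * (l - 1)), mul_assoc, ← Real.rpow_add hτ0]
        congr 2
        have h5 : (((2 * (l - 1) : ℕ)) : ℝ) = 2 * (l - 1) := by
          rw [Nat.cast_mul, Nat.cast_sub hl]
          norm_num
        have h6 : -(lG : ℝ) * (2 / q) = -2 * (lG / q) := by ring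
        rw [h5, h6, hθ]
        ring
  -- the integral
  obtain ⟨f, hf⟩ : ∃ f : (Fin (C'.m + 1) → ℂ) → ENNReal, f = fun ζ => ENNReal.ofReal
    (‖ev (toM C'.m (Polynomial.C (s * C'.J) * Polynomial.X ^ (l - 1))) ζ‖ ^ 2) := ⟨_, rfl⟩
  have hfm : Measurable f := by
    rw [hf]
    exact ENNReal.measurable_ofReal.comp (((hevc _ _).norm.pow 2).measurable)
  have hfv : ∀ (τ : ℂ) (z : Fin C'.m → ℂ), f (Fin.cons τ z : Fin (C'.m + 1) → ℂ) =
      ENNReal.ofReal (‖ev s z‖ ^ 2 * ‖τ‖ ^ (2 * (l - 1)) * ‖ev C'.J z‖ ^ 2) := by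
    intro τ z
    rw [hf]
    simp only
    rw [hTEV]
    congr 1
    rw [Polynomial.map_mul, Polynomial.map_C, Polynomial.map_pow, Polynomial.map_X,
      Polynomial.eval_mul, Polynomial.eval_C, Polynomial.eval_pow, Polynomial.eval_X, norm_mul,
      norm_pow, map_mul, norm_mul, mul_pow, mul_pow, ← pow_mul, mul_comm (l - 1) 2]
    ring
  have hgoal : ∫⁻ ζ in A, f ζ ≠ ⊤ := by
    rw [← lintegral_indicator hAm, tonelli _ (hfm.indicator hAm)]
    obtain ⟨M, hM⟩ : ∃ M : ℝ, M = K ^ (2 / q) * Λ ^ (1 / (r : ℝ)) * |K₂| * 2 ^ (2 + 2 * ε) :=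
      ⟨_, rfl⟩
    have hp : 0 < 2 + 2 * ε := by linarith
    have hKq : 0 ≤ K ^ (2 / q) := by positivity
    have key : ∀ τ : ℂ, ∫⁻ z : Fin C'.m → ℂ, A.indicator f (Fin.cons τ z : Fin (C'.m + 1) → ℂ) ≤
        ENNReal.ofReal M * ENNReal.ofReal ((1 + ‖τ‖) ^ (-(2 + 2 * ε))) := by
      intro τ
      have h1 : ∀ z : Fin C'.m → ℂ, A.indicator f (Fin.cons τ z : Fin (C'.m + 1) → ℂ) =
          {z | (Fin.cons τ z : Fin (C'.m + 1) → ℂ) ∈ A}.indicator (fun z => ENNReal.ofReal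
            (‖ev s z‖ ^ 2 * ‖τ‖ ^ (2 * (l - 1)) * ‖ev C'.J z‖ ^ 2)) z := by
        intro z
        by_cases hz : (Fin.cons τ z : Fin (C'.m + 1) → ℂ) ∈ A
        · have hz' : z ∈ {z : Fin C'.m → ℂ | (Fin.cons τ z : Fin (C'.m + 1) → ℂ) ∈ A} := hz
          rw [Set.indicator_of_mem hz, Set.indicator_of_mem hz', hfv]
        · have hz' : z ∉ {z : Fin C'.m → ℂ | (Fin.cons τ z : Fin (C'.m + 1) → ℂ) ∈ A} := hz
          rw [Set.indicator_of_notMem hz, Set.indicator_of_notMem hz']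
      simp only [h1]
      have hslo : ∀ t : ℝ, 0 ≤ t → C'.nu {z | PP s₁ lam t z ≤ Λ} ≤
          ENNReal.ofReal (Λ ^ (1 / (r : ℝ)) * (|K₂| * Real.exp (-((ℓ - ε) * t)))) := by
        intro t ht
        rw [hTSC C' hC r F hF N s₁ lam hAdp Λ t hΛ, ENNReal.ofReal_mul (by positivity)]
        refine mul_le_mul' le_rfl ((hK₂ t ht).trans (ENNReal.ofReal_le_ofReal ?_))
        exact mul_le_mul_of_nonneg_right (le_abs_self _) (by positivity)
      rcases le_total ‖τ‖ 1 with hτ | hτ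
      · have h2 := inner C' s₁ lam 0 Λ (K ^ (2 / q))
          {z | (Fin.cons τ z : Fin (C'.m + 1) → ℂ) ∈ A}
          (fun z => ‖ev s z‖ ^ 2 * ‖τ‖ ^ (2 * (l - 1)))
          (fun z hz => ⟨hPP0 τ z hz, hs0 τ z hτ hz⟩) hKq
        refine h2.trans ?_
        refine (mul_le_mul' le_rfl (hslo 0 le_rfl)).trans ?_
        rw [← ENNReal.ofReal_mul hKq, ← ENNReal.ofReal_mul (by rw [hM]; positivity)]
        refine ENNReal.ofReal_le_ofReal ?_
        rw [mul_zero, neg_zero, Real.exp_zero, mul_one, hM]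
        have h3 := one_pow_bd hp (norm_nonneg τ) hτ
        calc K ^ (2 / q) * (Λ ^ (1 / (r : ℝ)) * |K₂|)
            = K ^ (2 / q) * Λ ^ (1 / (r : ℝ)) * |K₂| * 1 := by ring
          _ ≤ K ^ (2 / q) * Λ ^ (1 / (r : ℝ)) * |K₂| *
              (2 ^ (2 + 2 * ε) * (1 + ‖τ‖) ^ (-(2 + 2 * ε))) :=
            mul_le_mul_of_nonneg_left h3 (by positivity)
          _ = _ := by ring
      · have hτ0 : 0 < ‖τ‖ := by linarith
        have ht : 0 ≤ 2 * Real.log ‖τ‖ := by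
          have := Real.log_nonneg hτ
          linarith
        have h2 := inner C' s₁ lam (2 * Real.log ‖τ‖) Λ
          (K ^ (2 / q) * ‖τ‖ ^ (2 * ℓ - 2 - 4 * ε))
          {z | (Fin.cons τ z : Fin (C'.m + 1) → ℂ) ∈ A}
          (fun z => ‖ev s z‖ ^ 2 * ‖τ‖ ^ (2 * (l - 1)))
          (fun z hz => ⟨hPPt τ z hτ hz, hs1 τ z hτ hz⟩) (by positivity)
        refine h2.trans ?_
        refine (mul_le_mul' le_rfl (hslo _ ht)).trans ?_
        rw [← ENNReal.ofReal_mul (by positivity), ← ENNReal.ofReal_mul (by rw [hM]; positivity)]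
        refine ENNReal.ofReal_le_ofReal ?_
        have h4 : Real.exp (-((ℓ - ε) * (2 * Real.log ‖τ‖))) = ‖τ‖ ^ (-(2 * ℓ) + 2 * ε) := by
          rw [Real.rpow_def_of_pos hτ0]
          congr 1
          ring
        rw [h4, hM]
        have h3 := two_pow_bd hp hτ
        have h5 : ‖τ‖ ^ (2 * ℓ - 2 - 4 * ε) * ‖τ‖ ^ (-(2 * ℓ) + 2 * ε) =
            ‖τ‖ ^ (-(2 + 2 * ε)) := by
          rw [← Real.rpow_add hτ0]
          congr 1
          ring
        calc K ^ (2 / q) * ‖τ‖ ^ (2 * ℓ - 2 - 4 * ε) *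
              (Λ ^ (1 / (r : ℝ)) * (|K₂| * ‖τ‖ ^ (-(2 * ℓ) + 2 * ε)))
            = K ^ (2 / q) * Λ ^ (1 / (r : ℝ)) * |K₂| *
              (‖τ‖ ^ (2 * ℓ - 2 - 4 * ε) * ‖τ‖ ^ (-(2 * ℓ) + 2 * ε)) := by ring
          _ ≤ K ^ (2 / q) * Λ ^ (1 / (r : ℝ)) * |K₂| *
              (2 ^ (2 + 2 * ε) * (1 + ‖τ‖) ^ (-(2 + 2 * ε))) := by
            rw [h5]
            exact mul_le_mul_of_nonneg_left h3 (by positivity)
          _ = _ := by ring
    refine ((lintegral_mono key).trans_lt ?_).ne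
    rw [lintegral_const_mul' _ _ ENNReal.ofReal_ne_top]
    exact ENNReal.mul_lt_top ENNReal.ofReal_lt_top
      (lt_top_iff_ne_top.2 (fin_int (by linarith)))
  rw [hA, hf] at hgoal
  exact hgoal

end Pool.Agent.Helper31.KPA
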