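import Pool.Agent.Helper5.KPA.StT

/-!
# Project KP, module TJS: Jacobian of a Noether normalization of `B`
-/

set_option autoImplicit false

namespace Pool.Agent.Helper31.KPA

open Pool.Agent.Helper5.KPA Pool.Agent.Helper52.KP MvPolynomial

/-- the Jacobian determinant as a multilinear map -/
noncomputable def Jm (M : ℕ) : MultilinearMap ℂ (fun _ : Fin M => MvPolynomial (Fin M) ℂ)
    (MvPolynomial (Fin M) ℂ) :=
  ((Matrix.detRowAlternating (R := MvPolynomial (Fin M) ℂ)
    (n := Fin M)).toMultilinearMap.restrictScalars ℂ).compLinearMap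
    fun _ => LinearMap.pi fun j => (pderiv j : Derivation ℂ (MvPolynomial (Fin M) ℂ)
      (MvPolynomial (Fin M) ℂ)).toLinearMap

theorem Jm_apply (M : ℕ) (f : Fin M → MvPolynomial (Fin M) ℂ) : Jm M f = jac f := rfl

theorem fse_rename (m : ℕ) (p : MvPolynomial (Fin m) ℂ) :
    finSuccEquiv ℂ m (rename Fin.succ p) = Polynomial.C p := by
  induction p using MvPolynomial.induction_on with
  | C a =>
    rw [rename_C]
    have : (C a : MvPolynomial (Fin (m + 1)) ℂ) = algebraMap ℂ _ a := rfl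
    rw [this, AlgEquiv.commutes]
    rfl
  | add p q hp hq => rw [map_add, map_add, hp, hq, map_add]
  | mul_X p i hp => rw [map_mul, map_mul, hp, rename_X, finSuccEquiv_X_succ, map_mul]

theorem toM_mon (m : ℕ) (p : MvPolynomial (Fin m) ℂ) (l : ℕ) :
    toM m (Polynomial.C p * Polynomial.X ^ l) = rename Fin.succ p * X 0 ^ l := by
  unfold toM
  rw [AlgEquiv.symm_apply_eq, map_mul, map_pow, finSuccEquiv_X_zero, fse_rename]

theorem pderiv_zero_rename (m : ℕ) (p : MvPolynomial (Fin m) ℂ) :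
    pderiv 0 (rename Fin.succ p : MvPolynomial (Fin (m + 1)) ℂ) = 0 := by
  induction p using MvPolynomial.induction_on with
  | C a => rw [rename_C, pderiv_C]
  | add p q hp hq => rw [map_add, map_add, hp, hq, add_zero]
  | mul_X p i hp =>
    rw [map_mul, pderiv_mul, hp, rename_X, pderiv_X_of_ne (Fin.succ_ne_zero i), zero_mul,
      mul_zero, add_zero]

theorem pderiv_zero_mon (m : ℕ) (p : MvPolynomial (Fin m) ℂ) (l : ℕ) :
    pderiv 0 (rename Fin.succ p * X 0 ^ l : MvPolynomial (Fin (m + 1)) ℂ) =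
      rename Fin.succ p * (C (l : ℂ) * X 0 ^ (l - 1)) := by
  rw [pderiv_mul, pderiv_zero_rename, zero_mul, zero_add, pderiv_pow, pderiv_X_self, mul_one]
  simp

theorem pderiv_succ_mon (m : ℕ) (p : MvPolynomial (Fin m) ℂ) (l : ℕ) (j : Fin m) :
    pderiv j.succ (rename Fin.succ p * X 0 ^ l : MvPolynomial (Fin (m + 1)) ℂ) =
      rename Fin.succ (pderiv j p) * X 0 ^ l := by
  rw [pderiv_mul, pderiv_pow, pderiv_X_of_ne (Fin.succ_ne_zero j).symm, mul_zero, mul_zero,
    add_zero, pderiv_rename (Fin.succ_injective m)]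

/-- the Jacobian of monomials in `τ` -/
theorem jac_mon (m : ℕ) (b : Fin (m + 1) → MvPolynomial (Fin m) ℂ) (l : Fin (m + 1) → ℕ) :
    jac (fun i => toM m (Polynomial.C (b i) * Polynomial.X ^ l i)) =
      ∑ i : Fin (m + 1), toM m (Polynomial.C ((-1) ^ (i : ℕ) * (C (l i : ℂ)) * b i * jac (b ∘ i.succAbove)) *
        Polynomial.X ^ (l i - 1 + ∑ i', l (i.succAbove i'))) := by
  unfold jac
  rw [Matrix.det_succ_column_zero]
  refine Finset.sum_congr rfl fun i _ => ?_
  have h1 : (Matrix.of fun i' j' => pderiv j' (toM m (Polynomial.C (b i') * Polynomial.X ^ l i')))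
      i 0 = rename Fin.succ (b i) * (C (l i : ℂ) * X 0 ^ (l i - 1)) := by
    rw [Matrix.of_apply, toM_mon, pderiv_zero_mon]
  have h2 : ((Matrix.of fun i' j' => pderiv j' (toM m (Polynomial.C (b i') *
      Polynomial.X ^ l i'))).submatrix i.succAbove Fin.succ).det =
      (∏ i', X 0 ^ l (i.succAbove i')) * rename Fin.succ (jac (b ∘ i.succAbove)) := by
    have h3 : (Matrix.of fun i' j' => pderiv j' (toM m (Polynomial.C (b i') *
        Polynomial.X ^ l i'))).submatrix i.succAbove Fin.succ =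
        Matrix.of fun i' j' => (X 0 ^ l (i.succAbove i')) *
          (((rename Fin.succ : MvPolynomial (Fin m) ℂ →ₐ[ℂ] MvPolynomial (Fin (m + 1)) ℂ) :
            MvPolynomial (Fin m) ℂ →+* MvPolynomial (Fin (m + 1)) ℂ).mapMatrix
            (Matrix.of fun i' j' => pderiv j' ((b ∘ i.succAbove) i'))) i' j' := by
      ext1 i' j'
      rw [Matrix.submatrix_apply, Matrix.of_apply, Matrix.of_apply, toM_mon, pderiv_succ_mon,
        mul_comm]
      rfl
    rw [h3, Matrix.det_mul_column, ← RingHom.map_det]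
    rfl
  rw [h1, h2, toM_mon, Finset.prod_pow_eq_pow_sum, map_mul, map_mul, map_mul, map_pow, map_neg,
    map_one, rename_C, pow_add]
  unfold jac
  ring

/-- multiplication by `J` and passage to `m + 1` variables -/
noncomputable def toJ (C' : Cone) : QQ C'.m →ₗ[ℂ] MvPolynomial (Fin (C'.m + 1)) ℂ where
  toFun x := toM C'.m (x * Polynomial.C C'.J)
  map_add' x y := by rw [add_mul, map_add]
  map_smul' a x := by rw [smul_mul_assoc, map_smul, RingHom.id_apply]

theorem toJ_apply (C' : Cone) (x : QQ C'.m) : toJ C' x = toM C'.m (x * Polynomial.C C'.J) := rfl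

/-- the submodule of the possible values -/
noncomputable def EE (C' : Cone) (k : ℕ) : Submodule ℂ (MvPolynomial (Fin (C'.m + 1)) ℂ) :=
  (QR C' k).map (toJ C')

theorem mem_EE (C' : Cone) (k : ℕ) (p : MvPolynomial (Fin C'.m) ℂ) (l : ℕ) (hp : p ∈ C'.R k) :
    toM C'.m (Polynomial.C (p * C'.J) * Polynomial.X ^ l) ∈ EE C' k := by
  have h0 : (Polynomial.C (p * C'.J) * Polynomial.X ^ l : QQ C'.m) =
      Polynomial.C p * Polynomial.X ^ l * Polynomial.C C'.J := by
    rw [map_mul]
    ring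
  have h1 : (Polynomial.C p * Polynomial.X ^ l : QQ C'.m) ∈ QR C' k := by
    intro l'
    rw [Polynomial.coeff_C_mul, Polynomial.coeff_X_pow]
    split_ifs
    · rw [mul_one]; exact hp
    · rw [mul_zero]; exact Submodule.zero_mem _
  rw [h0, ← toJ_apply]
  exact Submodule.mem_map_of_mem h1

theorem EE_jac (C' : Cone) (hC : Good C') (d : ℕ) (hd : C'.n ≤ d * C'.m)
    (b : Fin (C'.m + 1) → MvPolynomial (Fin C'.m) ℂ) (hb : ∀ i, b i ∈ C'.R d)
    (l : Fin (C'.m + 1) → ℕ) :
    jac (fun i => toM C'.m (Polynomial.C (b i) * Polynomial.X ^ l i)) ∈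
      EE C' (d * (C'.m + 1) - C'.n) := by
  rw [jac_mon]
  refine Submodule.sum_mem _ fun i _ => ?_
  obtain ⟨⟨s, hs, hsj⟩, -⟩ := hC.jac (fun _ => d) (b ∘ i.succAbove) fun i' => hb _
  rw [Finset.sum_const, Finset.card_univ, Fintype.card_fin, smul_eq_mul] at hs
  rw [hsj]
  have h3 : (-1) ^ (i : ℕ) * C (l i : ℂ) * b i * (s * C'.J) =
      (((-1) ^ (i : ℕ) * (l i : ℂ)) • (b i * s)) * C'.J := by
    rw [smul_eq_C_mul, map_mul, map_pow, map_neg, map_one]
    ring
  rw [h3]
  refine mem_EE C' _ _ _ ?_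
  refine Submodule.smul_mem _ _ ?_
  have h4 := hC.mul _ _ _ _ (hb i) hs
  have h5 : d + (C'.m * d - C'.n) = d * (C'.m + 1) - C'.n := by
    rw [mul_add, mul_one, mul_comm C'.m]
    omega
  rwa [h5] at h4

theorem ai_toM (m : ℕ) (a : Fin (m + 1) → QQ m) (ha : AlgebraicIndependent ℂ a) :
    AlgebraicIndependent ℂ fun i => toM m (a i) := by
  have h := ha.map' (f := (toM m).toAlgHom) (toM m).injective
  exact h

theorem EE_jac' (C' : Cone) (hC : Good C') (d : ℕ) (hd : C'.n ≤ d * C'.m)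
    (a : Fin (C'.m + 1) → QQ C'.m) (ha : ∀ i l, (a i).coeff l ∈ C'.R d) :
    jac (fun i => toM C'.m (a i)) ∈ EE C' (d * (C'.m + 1) - C'.n) := by
  have h1 : (fun i => toM C'.m (a i)) = fun i => ∑ l ∈ (a i).support,
      toM C'.m (Polynomial.C ((a i).coeff l) * Polynomial.X ^ l) := by
    funext i
    rw [← map_sum, ← Polynomial.as_sum_support_C_mul_X_pow]
  rw [← Jm_apply, h1, MultilinearMap.map_sum_finset]
  refine Submodule.sum_mem _ fun φ _ => ?_
  rw [Jm_apply]
  exact EE_jac C' hC d hd (fun i => (a i).coeff (φ i)) (fun i => ha i (φ i)) φ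

/-- Module TJS. -/
theorem hTJS (hAJC : StAJC) : StTJS := by
  intro C' hC r F hF a ha
  have hn := hC.hn
  have hr := hF.hr
  have hm := hC.hm
  have hle : C'.n ≤ C'.n * r * C'.m := by
    have h1 : 1 ≤ r * C'.m := Nat.mul_pos hr (by omega)
    calc C'.n = C'.n * 1 := (mul_one _).symm
      _ ≤ C'.n * (r * C'.m) := Nat.mul_le_mul_left _ h1
      _ = _ := by ring
  have hanti : ∀ l, F 1 l ≤ F 1 0 := by
    intro l
    induction l with
    | zero => exact le_refl _
    | succ l ih => exact (hF.anti 1 l).trans ih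
  have hco : ∀ i l, (a i).coeff l ∈ C'.R (C'.n * r) := by
    intro i l
    have h2 := hF.zero 1
    rw [mul_one] at h2
    rw [← h2]
    exact hanti l (ha.mem i l)
  obtain ⟨S, hS, hS2⟩ := Submodule.mem_map.1 (EE_jac' C' hC (C'.n * r) hle a hco)
  rw [toJ_apply] at hS2
  have h2 := hAJC _ _ (ai_toM C'.m a ha.ai)
  refine ⟨S, hS, fun hS0 => h2 ?_, hS2.symm⟩
  have h3 : toM C'.m (S * Polynomial.C C'.J) = 0 := by
    rw [hS0, zero_mul]
    exact (toM C'.m).map_zero
  exact hS2.symm.trans h3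

end Pool.Agent.Helper31.KPA
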